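import Pool.Agent.H44.DU.Targets

/-!
# Module BS of the board du_modules
-/

set_option autoImplicit false

namespace Pool.Agent.H74.DU.BS

open Pool.Agent.H44.DU

theorem eword_cons {n : ℕ} {I : Side n → Prop} {r r' : Side n} {w : List (Side n)}
    (h0 : I r) (h : Surf.EWord I (r' :: w)) : Surf.EWord I (r :: r' :: w) := by
  obtain ⟨u, l, hu, h1, h2⟩ := h
  refine ⟨r :: u, l, by rw [hu]; simp, ?_, h2⟩
  intro s hs
  rcases List.mem_cons.1 hs with rfl | hs
  · exact h0
  · exact h1 s hs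

theorem dev_nil {n : ℕ} (S : Surf n) (c : Side n) : S.dev [] c = S.P c := by
  simp [Surf.dev, Surf.A, Surf.B]

/-- an open interval condition holds near a point -/
theorem near {α β x : ℝ} (h1 : α < x) (h2 : x < β) :
    ∃ ε > (0 : ℝ), ∀ y, x - ε < y → y < x + ε → α < y ∧ y < β :=
  ⟨min (x - α) (β - x), lt_min (by linarith) (by linarith), fun y hy hy' =>
    ⟨by have := min_le_left (x - α) (β - x); linarith,
      by have := min_le_right (x - α) (β - x); linarith⟩⟩

theorem pf_BS (h1 : T_IN) (h2 : T_CV) (h3 : T_CR) (h4 : T_DV) (h5 : T_LH) (h6 : T_EB) :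
    T_BS := by
  intro n S t I hGd ha hI r x w hB
  obtain ⟨b1, b2, ⟨y0, b3⟩, b4, b5, b6, b7⟩ := hB
  have hne : r :: w ≠ [] := by simp
  obtain ⟨hch, hy1, hy2⟩ := (h5 n S t (r :: w) hne y0).1 b3
  -- (a)
  have hO : x ≠ xi t (S.O r) := by
    intro hx
    have h7 : (S.O r).im < (S.pt t r x).im := (h3 n S t x).2.1 r b2 hx
    have h8 : x = S.lo t (r :: w) ∨ x = S.hi t (r :: w) := by
      by_contra hcon
      push_neg at hcon
      exact b4 ((h5 n S t (r :: w) hne x).2 ⟨hch, lt_of_le_of_ne b5 (Ne.symm hcon.1),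
        lt_of_le_of_ne b6 hcon.2⟩)
    have h9 : ∀ (u w' : List (Side n)) (l c : Side n), r :: w = u ++ l :: w' →
        (c = l ∨ c = nx l) → x = xi t (S.dev u c) → False := by
      intro u w' l c hu hc hxc
      have e1 := h2 n S t x y0 r w u w' l c hu b3 b5 b6 hc hxc
      have e2 : xi t (S.dev [] (nx (nx r))) = xi t (S.dev u c) := by
        rw [dev_nil, S.P_nx_nx, ← hx, hxc]
      have e3 := hGd [] u (nx (nx r)) c e2
      rw [dev_nil, S.P_nx_nx] at e3
      linarith
    rcases h8 with h8 | h8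
    · obtain ⟨u, l, w', hu, hlo⟩ := (h4 n S t (r :: w) hne).1
      exact h9 u w' l (nx l) hu (Or.inr rfl) (h8.trans hlo)
    · obtain ⟨u, l, w', hu, hhi⟩ := (h4 n S t (r :: w) hne).2.1
      exact h9 u w' l l hu (Or.inl rfl) (h8.trans hhi)
  -- (b)
  obtain ⟨s, hs1, hs2⟩ : ∃ s : Side n, s.1 = r.1 ∧ S.InI t s x := by
    rcases lt_or_gt_of_ne hO with h | h
    · exact ⟨nx r, rfl, S.entry_left b2 h⟩
    · exact ⟨nx (nx r), rfl, S.entry_right b2 h⟩
  obtain ⟨ε1, hε1, hn1⟩ := near hs2.1 hs2.2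
  obtain ⟨ε2, hε2, hn2⟩ := near b2.1 b2.2
  by_cases hIs : I s
  · -- (d)
    have hIr' : I (S.gl s) := (hI s).2 hIs
    have has : S.a s = 1 := ha s hIs
    have hmv : S.mv t (S.gl s) (S.mv t s x) = x := S.mv_gl t s x
    have hJ' : S.InJ t (S.gl s) (S.mv t s x) := (S.inJ_gl_iff t s x).2 hs2
    have hfst : (S.gl (S.gl s)).1 = r.1 := by rw [S.gl_gl]; exact hs1
    refine ⟨S.gl s, S.mv t s x, eword_cons hIr' b1, hJ', ?_, ?_, ?_, ?_, ?_⟩
    · -- a point at which the longer word is realised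
      have hz : ∃ z, S.lo t (r :: w) < z ∧ z < S.hi t (r :: w) ∧ x - ε1 < z ∧ z < x + ε1 := by
        rcases eq_or_lt_of_le b5 with h | h
        · refine ⟨min ((S.lo t (r :: w) + S.hi t (r :: w)) / 2) (x + ε1 / 2), ?_, ?_, ?_, ?_⟩
          · rw [lt_min_iff]; exact ⟨by linarith, by linarith⟩
          · exact (min_le_left _ _).trans_lt (by linarith)
          · rw [lt_min_iff]; exact ⟨by linarith, by linarith⟩
          · exact (min_le_right _ _).trans_lt (by linarith)
        · refine ⟨max ((S.lo t (r :: w) + x) / 2) (x - ε1 / 2), ?_, ?_, ?_, ?_⟩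
          · exact lt_max_of_lt_left (by linarith)
          · rw [max_lt_iff]; exact ⟨by linarith, by linarith⟩
          · exact lt_max_of_lt_right (by linarith)
          · rw [max_lt_iff]; exact ⟨by linarith, by linarith⟩
      obtain ⟨z, z1, z2, z3, z4⟩ := hz
      refine ⟨S.mv t s z, (S.run_cons_cons t _ _ _ _).2
        ⟨(S.inJ_gl_iff t s z).2 (hn1 z z3 z4), hfst, ?_⟩⟩
      rw [S.mv_gl]
      exact (h5 n S t (r :: w) hne z).2 ⟨hch, z1, z2⟩
    · intro hR
      rw [S.run_cons_cons, hmv] at hR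
      exact b4 hR.2.2
    · have hlo : S.lo t (S.gl s :: r :: w) = max (xi t (S.Q (S.gl s)))
          ((S.lo t (r :: w) - xi t (S.b (S.gl s))) / S.a (S.gl s)) := rfl
      rw [hlo, max_le_iff]
      refine ⟨hJ'.1.le, ?_⟩
      rw [div_le_iff₀ (S.a_pos _)]
      have : S.a (S.gl s) * S.mv t s x + xi t (S.b (S.gl s)) = x := hmv
      nlinarith [this, b5]
    · have hhi : S.hi t (S.gl s :: r :: w) = min (xi t (S.P (S.gl s)))
          ((S.hi t (r :: w) - xi t (S.b (S.gl s))) / S.a (S.gl s)) := rfl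
      rw [hhi, le_min_iff]
      refine ⟨hJ'.2.le, ?_⟩
      rw [le_div_iff₀ (S.a_pos _)]
      have : S.a (S.gl s) * S.mv t s x + xi t (S.b (S.gl s)) = x := hmv
      nlinarith [this, b6]
    · intro ε hε
      obtain ⟨c, d, hcd, hc, hd, hE⟩ := b7 (min ε (min ε1 ε2))
        (lt_min hε (lt_min hε1 hε2))
      have m1 : min ε (min ε1 ε2) ≤ ε := min_le_left _ _
      have m2 : min ε (min ε1 ε2) ≤ ε1 := (min_le_right _ _).trans (min_le_left _ _)
      have m3 : min ε (min ε1 ε2) ≤ ε2 := (min_le_right _ _).trans (min_le_right _ _)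
      have hsh : ∀ y, S.mv t s y = y + xi t (S.b s) := by
        intro y; rw [Surf.mv, has, one_mul]
      refine ⟨S.mv t s c, S.mv t s d, (S.mv_lt_iff t s).2 hcd, ?_, ?_, ?_⟩
      · rw [hsh, hsh]; linarith
      · rw [hsh, hsh]; linarith
      · intro y' hy1 hy2
        obtain ⟨y, hy⟩ : ∃ y, y = S.mv t (S.gl s) y' := ⟨_, rfl⟩
        have hy' : y' = S.mv t s y := by rw [hy, S.mv_gl']
        rw [hy'] at hy1 hy2
        rw [S.mv_lt_iff] at hy1 hy2
        have k1 : S.InI t s y := hn1 y (by linarith) (by linarith)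
        have k2 : S.InJ t r y := hn2 y (by linarith) (by linarith)
        have k3 : S.InJ t (S.gl s) y' := by
          rw [hy']; exact (S.inJ_gl_iff t s y).2 k1
        have hT : S.Tr t (S.gl s, y') (r, S.mv t (S.gl s) y') := by
          refine ⟨k3, ?_, hfst, rfl⟩
          change S.InJ t r (S.mv t (S.gl s) y')
          rw [← hy]; exact k2
        rw [h6 n S t I r (S.gl s) y' hIr' hT, ← hy]
        exact hE y hy1 hy2
  · -- (c)
    exfalso
    obtain ⟨c, d, hcd, hc, hd, hE⟩ := b7 (min ε1 ε2) (lt_min hε1 hε2)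
    have m2 : min ε1 ε2 ≤ ε1 := min_le_left _ _
    have m3 : min ε1 ε2 ≤ ε2 := min_le_right _ _
    obtain ⟨y, hy1, hy2, hy3⟩ := h1 n S t I ha hI s r c d hIs hs1 hcd (fun y hy hy' =>
      ⟨hn1 y (by linarith) (by linarith), hn2 y (by linarith) (by linarith)⟩)
    exact hE y hy1 hy2 hy3

end Pool.Agent.H74.DU.BS
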