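import Pool.Agent.H44.DU.Targets

/-!
# Module EB of the board du_modules
-/

set_option autoImplicit false

namespace Pool.Agent.H74.DU.EB

open Pool.Agent.H44.DU

theorem eword_cons {n : ℕ} {I : Side n → Prop} {r r' : Side n} {w : List (Side n)} :
    Surf.EWord I (r :: r' :: w) ↔ I r ∧ Surf.EWord I (r' :: w) := by
  constructor
  · rintro ⟨u, l, hu, h1, h2⟩
    cases u with
    | nil => simp at hu
    | cons a u =>
      simp only [List.cons_append, List.cons.injEq] at hu
      obtain ⟨rfl, hu⟩ := hu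
      exact ⟨h1 _ (by simp), u, l, hu, fun s hs => h1 s (by simp [hs]), h2⟩
  · rintro ⟨h0, u, l, hu, h1, h2⟩
    refine ⟨r :: u, l, by rw [hu]; simp, ?_, h2⟩
    intro s hs
    rcases List.mem_cons.1 hs with rfl | hs
    · exact h0
    · exact h1 s hs

theorem not_eword_single {n : ℕ} {I : Side n → Prop} {r : Side n} (hr : I r) :
    ¬ Surf.EWord I [r] := by
  rintro ⟨u, l, hu, h1, h2⟩
  cases u with
  | nil =>
    simp only [List.nil_append, List.cons.injEq, and_true] at hu
    exact h2 (hu ▸ hr)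
  | cons a u => simp at hu

theorem pf_EB : T_EB := by
  intro n S t I r r' x hr' hT
  obtain ⟨h1, h2, h3, -⟩ := hT
  simp only at h1 h2 h3
  constructor
  · rintro ⟨w, hw, hrun⟩
    cases w with
    | nil => exact absurd hw (not_eword_single hr')
    | cons r'' w2 =>
      rw [Surf.run_cons_cons] at hrun
      obtain ⟨-, h5, h6⟩ := hrun
      have h7 : S.InJ t r'' (S.mv t r' x) := h6.1
      have h8 : r'' = r := S.exit_unique (h5.symm.trans h3) h7 h2
      subst h8
      exact ⟨w2, (eword_cons.1 hw).2, h6⟩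
  · rintro ⟨w, hw, hrun⟩
    exact ⟨r :: w, eword_cons.2 ⟨hr', hw⟩, (S.run_cons_cons t r' r w x).2 ⟨h1, h3, hrun⟩⟩

end Pool.Agent.H74.DU.EB
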