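import Pool.Agent.H44.DU.Targets2

/-!
# The backward orbits in `V` are periodic (general form)
-/

set_option autoImplicit false

namespace Pool.Agent.H74.DU.L6

open Pool.Agent.H44.DU Pool.Agent.H44.DU.Surf

/-- The words of a sequence with period `p`. -/
theorem word_eq {β : Type} (f : ℕ → β) (p : ℕ) (hp : ∀ k, f (k + p) = f k) (k m : ℕ) :
    (List.range (k * p + m)).map f =
      (List.replicate k ((List.range p).map f)).flatten ++ (List.range m).map f := by
  induction k with
  | zero => simp
  | succ k ih =>
    have h1 : (k + 1) * p + m = p + (k * p + m) := by ring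
    rw [h1, List.range_add, List.map_append, List.map_map, List.replicate_succ,
      List.flatten_cons, List.append_assoc, ← ih]
    congr 1
    apply List.map_congr_left
    intro j _
    simp only [Function.comp]
    rw [add_comm p j, hp]

/-- The words of a backward chain. -/
theorem bk_run {n : ℕ} (S : Surf n) {t : ℝ} {y : ℕ → Side n × ℝ}
    (hy : ∀ k, S.Tr t (y (k + 1)) (y k)) (m k : ℕ) :
    S.Run t ((List.range m).map fun j => (y (k + m - j)).1) (y (k + m)).2 ∧
    S.g t ((List.range m).map fun j => (y (k + m - j)).1) (y (k + m)).2 = (y k).2 := by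
  induction m with
  | zero => simp [Run, g_nil]
  | succ m ih =>
    have h1 : (List.range (m + 1)).map (fun j => (y (k + (m + 1) - j)).1) =
        (y (k + m + 1)).1 :: (List.range m).map (fun j => (y (k + m - j)).1) := by
      rw [List.range_succ_eq_map, List.map_cons, List.map_map]
      congr 1
      apply List.map_congr_left
      intro j _
      simp only [Function.comp, Nat.succ_eq_add_one]
      congr 2
      omega
    have hk := hy (k + m)
    have h2 : S.mv t (y (k + m + 1)).1 (y (k + (m + 1))).2 = (y (k + m)).2 := hk.2.2.2.symm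
    rw [h1]
    refine ⟨⟨hk.1, ?_, ?_⟩, ?_⟩
    · intro r' hr'
      cases m with
      | zero => simp at hr'
      | succ m =>
        rw [List.range_succ_eq_map] at hr'
        simp only [List.map_cons, List.head?_cons, Option.mem_def, Option.some.injEq,
          Nat.sub_zero] at hr'
        rw [← hr']
        exact hk.2.2.1
    · rw [h2]
      exact ih.1
    · rw [g_cons, h2]
      exact ih.2

theorem pf_L6 (h1 : T_L1) (h2 : T_P2) : T_L6 := by
  intro n S V t c C ρ m hGd hc hGain hC hρ0 hρ1 hContr hm hNB y hy hyV
  -- the runs from the index `m + K`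
  have hrun : ∀ K a : ℕ, a ≤ m + K →
      S.Run t ((List.range a).map fun j => (y (m + K - j)).1) (y (m + K)).2 ∧
      S.g t ((List.range a).map fun j => (y (m + K - j)).1) (y (m + K)).2 =
        (y (m + K - a)).2 := by
    intro K a ha
    have h3 := bk_run S hy a (m + K - a)
    rw [show m + K - a + a = m + K by omega] at h3
    exact h3
  -- the next letter
  have hnext : ∀ K : ℕ, ∃ r : Side n,
      (∀ x, S.Run t ((List.range m).map fun j => (y (m + (K + 1) - j)).1) x →
        S.Run t ((List.range m).map (fun j => (y (m + (K + 1) - j)).1) ++ [r]) x) ∧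
      (∀ r' x, S.Run t ((List.range m).map (fun j => (y (m + (K + 1) - j)).1) ++ [r']) x →
        r' = r) ∧ (y (K + 1)).1 = r := by
    intro K
    have hRW : ((List.range m).map fun j => (y (m + (K + 1) - j)).1) ∈ S.RW V t m := by
      refine ⟨by simp, ?_, _, (hrun (K + 1) m (by omega)).1⟩
      intro r hr
      obtain ⟨j, -, rfl⟩ := List.mem_map.1 hr
      exact hyV _
    obtain ⟨r, h3, h4⟩ := h1 n S V t m hm hNB _ hRW
    refine ⟨r, h3, h4, ?_⟩
    have h5 := (hrun (K + 1) (m + 1) (by omega)).1
    rw [List.range_succ, List.map_append, List.map_singleton,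
      show m + (K + 1) - m = K + 1 by omega] at h5
    exact h4 _ _ h5
  have hstep : ∀ K K' : ℕ, (∀ j < m, (y (m + (K + 1) - j)).1 = (y (m + (K' + 1) - j)).1) →
      ∀ j < m, (y (m + K - j)).1 = (y (m + K' - j)).1 := by
    intro K K' hE j hj
    rcases Nat.lt_or_ge (j + 1) m with h3 | h3
    · have h4 := hE (j + 1) h3
      rw [show m + (K + 1) - (j + 1) = m + K - j by omega,
        show m + (K' + 1) - (j + 1) = m + K' - j by omega] at h4
      exact h4
    · have hjm : j + 1 = m := by omega
      obtain ⟨r, -, h5, h6⟩ := hnext K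
      obtain ⟨r', -, -, h8⟩ := hnext K'
      have h9 : (List.range m).map (fun j => (y (m + (K + 1) - j)).1) =
          (List.range m).map (fun j => (y (m + (K' + 1) - j)).1) :=
        List.map_inj_left.2 fun j hj => hE j (List.mem_range.1 hj)
      have h10 := (hrun (K' + 1) (m + 1) (by omega)).1
      rw [List.range_succ, List.map_append, List.map_singleton,
        show m + (K' + 1) - m = K' + 1 by omega, ← h9] at h10
      have h11 := h5 _ _ h10
      rw [show m + K - j = K + 1 by omega, show m + K' - j = K' + 1 by omega, h6, h11]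
  have hcmp0 : ∀ (i K K' : ℕ), (∀ j < m, (y (m + (K + i) - j)).1 = (y (m + (K' + i) - j)).1) →
      ∀ j < m, (y (m + K - j)).1 = (y (m + K' - j)).1 := by
    intro i
    induction i with
    | zero => intro K K' h; simpa using h
    | succ i ih =>
      intro K K' h
      exact ih K K' (hstep (K + i) (K' + i) h)
  -- two indices with the same window have the same letters
  have hcmp : ∀ K K' : ℕ, (∀ j < m, (y (m + K - j)).1 = (y (m + K' - j)).1) →
      ∀ j, j < m + K → j < m + K' → (y (m + K - j)).1 = (y (m + K' - j)).1 := by
    intro K K' h j hj hj'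
    obtain ⟨i, hi1, hi2, hi3, hi4⟩ : ∃ i, i ≤ K ∧ i ≤ K' ∧ i ≤ j ∧ j - i < m :=
      ⟨min j (min K K'), by omega, by omega, by omega, by omega⟩
    have h3 := hcmp0 i (K - i) (K' - i) (by
      rw [show K - i + i = K by omega, show K' - i + i = K' by omega]; exact h) (j - i) hi4
    rw [show m + (K - i) - (j - i) = m + K - j by omega,
      show m + (K' - i) - (j - i) = m + K' - j by omega] at h3
    exact h3
  -- infinitely many equal windows
  obtain ⟨cw, hcw⟩ : ∃ cw : Fin m → Side n,
      {K : ℕ | (fun j : Fin m => (y (m + K - j)).1) = cw}.Infinite := by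
    obtain ⟨cw, hcw⟩ := Finite.exists_infinite_fiber
      (fun K : ℕ => (fun j : Fin m => (y (m + K - j)).1))
    exact ⟨cw, Set.infinite_coe_iff.1 hcw⟩
  have hA2 : ∀ K K' : ℕ, K ∈ {K : ℕ | (fun j : Fin m => (y (m + K - j)).1) = cw} →
      K' ∈ {K : ℕ | (fun j : Fin m => (y (m + K - j)).1) = cw} →
      ∀ j, j < m + K → j < m + K' → (y (m + K - j)).1 = (y (m + K' - j)).1 := by
    intro K K' hK hK'
    refine hcmp K K' ?_
    intro j hj
    have h3 := congrFun ((show (fun j : Fin m => (y (m + K - j)).1) = cw from hK).trans
      (show (fun j : Fin m => (y (m + K' - j)).1) = cw from hK').symm) ⟨j, hj⟩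
    exact h3
  obtain ⟨k1, hk1⟩ := hcw.nonempty
  obtain ⟨k2, hk2, hlt⟩ := hcw.exists_gt k1
  obtain ⟨p, hp⟩ : ∃ p, k2 = k1 + p := ⟨k2 - k1, by omega⟩
  have hp0 : 0 < p := by omega
  have hsub : ∀ K ∈ {K : ℕ | (fun j : Fin m => (y (m + K - j)).1) = cw}, k2 ≤ K →
      K - p ∈ {K : ℕ | (fun j : Fin m => (y (m + K - j)).1) = cw} := by
    intro K hK hle
    show (fun j : Fin m => (y (m + (K - p) - j)).1) = cw
    rw [← (show (fun j : Fin m => (y (m + k1 - j)).1) = cw from hk1)]
    funext j
    have h3 := hA2 K k2 hK hk2 (j + p) (by omega) (by omega)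
    rw [show m + K - (j + p) = m + (K - p) - j by omega,
      show m + k2 - (j + p) = m + k1 - j by omega] at h3
    exact h3
  -- the periodic letters
  set l : ℕ → Side n := fun j => (y (m + k2 - (j % p))).1 with hl
  have hlper : ∀ j, l (j + p) = l j := by
    intro j
    simp only [hl, Nat.add_mod_right]
  have hlet : ∀ K ∈ {K : ℕ | (fun j : Fin m => (y (m + K - j)).1) = cw}, k2 ≤ K →
      ∀ j, j < m + K → (y (m + K - j)).1 = l j := by
    intro K hK hle j
    induction j using Nat.strong_induction_on with
    | _ j ih =>
      intro hj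
      rcases Nat.lt_or_ge j p with h3 | h3
      · rw [hl]
        simp only
        rw [Nat.mod_eq_of_lt h3]
        exact hA2 K k2 hK hk2 j hj (by omega)
      · obtain ⟨i, rfl⟩ : ∃ i, j = i + p := ⟨j - p, by omega⟩
        have h4 := hA2 (K - p) K (hsub K hK hle) hK i (by omega) (by omega)
        rw [show m + (K - p) - i = m + K - (i + p) by omega] at h4
        rw [h4, ih i (by omega) (by omega), hlper]
  have hrunl : ∀ K ∈ {K : ℕ | (fun j : Fin m => (y (m + K - j)).1) = cw}, k2 ≤ K →
      ∀ a, a ≤ m + K → S.Run t ((List.range a).map l) (y (m + K)).2 ∧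
        S.g t ((List.range a).map l) (y (m + K)).2 = (y (m + K - a)).2 := by
    intro K hK hle a ha
    have h3 : (List.range a).map l = (List.range a).map fun j => (y (m + K - j)).1 := by
      apply List.map_congr_left
      intro j hj
      exact (hlet K hK hle j (by have := List.mem_range.1 hj; omega)).symm
    rw [h3]
    exact hrun K a ha
  have hbig : ∀ a : ℕ, ∃ K ∈ {K : ℕ | (fun j : Fin m => (y (m + K - j)).1) = cw},
      k2 ≤ K ∧ a ≤ K := by
    intro a
    obtain ⟨K, hK, h3⟩ := hcw.exists_gt (max k2 a)
    exact ⟨K, hK, by omega, by omega⟩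
  have hlV : ∀ j, V (l j).1 := fun j => hyV _
  have hwV : ∀ a : ℕ, ∀ r ∈ (List.range a).map l, V r.1 := by
    intro a r hr
    obtain ⟨j, -, rfl⟩ := List.mem_map.1 hr
    exact hlV j
  have hword := word_eq l p hlper
  have hune : (List.range p).map l ≠ [] := by
    intro h
    have := congrArg List.length h
    simp at this
    omega
  have hwne : (List.range m).map l ≠ [] := by
    intro h
    have := congrArg List.length h
    simp at this
    omega
  have hhead : ((List.range m).map l).head? = ((List.range p).map l).head? := by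
    obtain ⟨p', rfl⟩ : ∃ p', p = p' + 1 := ⟨p - 1, by omega⟩
    obtain ⟨m', rfl⟩ : ∃ m', m = m' + 1 := ⟨m - 1, by omega⟩
    rw [List.range_succ_eq_map, List.range_succ_eq_map, List.map_cons, List.map_cons,
      List.head?_cons, List.head?_cons]
  have hA : ∀ k : ℕ, S.A ((List.replicate k ((List.range p).map l)).flatten) ≤ C * ρ ^ k := by
    intro k
    have h4 := hword k 0
    simp only [List.range_zero, List.map_nil, List.append_nil, add_zero] at h4
    rw [← h4]
    obtain ⟨K, hK, h5, h6⟩ := hbig (k * p)
    have h7 := hContr _ _ (hwV (k * p)) (hrunl K hK h5 (k * p) (by omega)).1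
    refine h7.trans ?_
    apply mul_le_mul_of_nonneg_left _ hC.le
    simp only [List.length_map, List.length_range]
    exact pow_le_pow_of_le_one hρ0.le hρ1.le (Nat.le_mul_of_pos_right k hp0)
  have hext : ∀ a : ℕ, ∀ x, S.Run t ((List.range m).map l) x →
      S.Run t ((List.range (a + m)).map l) x := by
    intro a x hx
    induction a with
    | zero => simpa using hx
    | succ a ih =>
      obtain ⟨K, hK, h5, h6⟩ := hbig (a + 1)
      obtain ⟨r, h7, -, h9⟩ := hnext (K - a - 1)
      rw [show K - a - 1 + 1 = K - a by omega] at h7 h9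
      have h10 : (List.range m).map (fun j => (y (m + (K - a) - j)).1) =
          (List.range m).map (fun j => l (a + j)) := by
        apply List.map_congr_left
        intro j hj
        have hj' := List.mem_range.1 hj
        rw [← hlet K hK h5 (a + j) (by omega)]
        congr 2
        omega
      have h11 : r = l (a + m) := by
        rw [← hlet K hK h5 (a + m) (by omega), ← h9]
        congr 2
        omega
      rw [h10, h11] at h7
      have h12 : (List.range (a + m)).map l =
          (List.range a).map l ++ (List.range m).map (fun j => l (a + j)) := by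
        rw [List.range_add, List.map_append, List.map_map]
        rfl
      have h13 : (List.range (a + 1 + m)).map l = (List.range (a + m)).map l ++ [l (a + m)] := by
        rw [show a + 1 + m = a + m + 1 by ring, List.range_succ, List.map_append,
          List.map_singleton]
      rw [h13]
      rw [h12, run_append] at ih
      have h14 := h7 _ ih.2.2
      rw [run_append] at h14
      rw [run_append, h12]
      refine ⟨(S.run_append t _ _ x).2 ih, ?_, ?_⟩
      · intro r1 hr1 r2 hr2
        refine h14.2.1 r1 ?_ r2 hr2
        have hne : (List.range m).map (fun j => l (a + j)) ≠ [] := by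
          intro h
          have := congrArg List.length h
          simp at this
          omega
        rwa [List.getLast?_append_of_ne_nil _ hne] at hr1
      · rw [g_append]
        exact h14.2.2
  obtain ⟨K0, hK0, hK0a, -⟩ := hbig 0
  obtain ⟨-, xs, hgx, hrunx⟩ := h2 n S t c C ρ ((List.range p).map l) ((List.range m).map l)
    hGd hc hGain hC hρ0 hρ1 hune hwne hhead hA
    ⟨(y (m + K0)).2, (hrunl K0 hK0 hK0a m (by omega)).1⟩
    (fun k x hx => by rw [← hword k m]; exact hext (k * p) x hx)
  have hrx : ∀ a, S.Run t ((List.range a).map l) xs := by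
    intro a
    have h3 := hrunx a
    rw [← hword a m] at h3
    have h4 := S.run_take h3 a
    rw [← List.map_take, List.take_range] at h4
    have h5 : min a (a * p + m) = a := by
      have := Nat.le_mul_of_pos_right a hp0
      omega
    rwa [h5] at h4
  set z : ℕ → Side n × ℝ := fun j => (l j, S.g t ((List.range j).map l) xs) with hz
  have hz1 : ∀ j, S.Tr t (z j) (z (j + 1)) := by
    intro j
    have h3 := hrx (j + 1 + 1)
    rw [List.range_succ, List.map_append, List.map_singleton, List.range_succ, List.map_append,
      List.map_singleton, run_snoc] at h3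
    obtain ⟨h4, h5, h6⟩ := h3
    rw [run_append, run_single] at h4
    refine ⟨h4.2.2, ?_, h5, ?_⟩
    · show S.InJ t (l (j + 1)) (S.g t ((List.range (j + 1)).map l) xs)
      rw [List.range_succ, List.map_append, List.map_singleton]
      exact h6
    · show S.g t ((List.range (j + 1)).map l) xs = S.mv t (l j) (S.g t ((List.range j).map l) xs)
      rw [List.range_succ, List.map_append, List.map_singleton, g_append, g_single]
  have hz3 : ∀ j, z (j + p) = z j := by
    intro j
    refine Prod.ext (hlper j) ?_
    show S.g t ((List.range (j + p)).map l) xs = S.g t ((List.range j).map l) xs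
    have h3 : (List.range (j + p)).map l = (List.range p).map l ++ (List.range j).map l := by
      rw [add_comm j p, List.range_add, List.map_append, List.map_map]
      congr 1
      apply List.map_congr_left
      intro i _
      simp only [Function.comp]
      rw [add_comm p i, hlper]
    rw [h3, g_append, hgx]
  have hzper : Function.Periodic z p := hz3
  -- infinitely many with the same residue
  obtain ⟨d, hd⟩ : ∃ d, {k | k ∈ {K : ℕ | (fun j : Fin m => (y (m + K - j)).1) = cw} ∧ k2 ≤ k ∧
      (k - k1) % p = d}.Infinite := by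
    by_contra hcon
    push Not at hcon
    have hfin : (⋃ d ∈ Finset.range p,
        {k | k ∈ {K : ℕ | (fun j : Fin m => (y (m + K - j)).1) = cw} ∧ k2 ≤ k ∧
          (k - k1) % p = d}).Finite :=
      Set.Finite.biUnion (Finset.finite_toSet _) fun d _ => hcon d
    refine (hcw.sdiff (Set.finite_Iio k2)) (hfin.subset ?_)
    rintro k ⟨h5, h6⟩
    simp only [Set.mem_Iio, not_lt] at h6
    simp only [Set.mem_iUnion, Finset.mem_range]
    exact ⟨(k - k1) % p, Nat.mod_lt _ hp0, h5, h6, rfl⟩
  set M : ℝ := xi t (S.P (z 0).1) - xi t (S.Q (z 0).1) with hM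
  have hest : ∀ k ∈ {K : ℕ | (fun j : Fin m => (y (m + K - j)).1) = cw}, k2 ≤ k →
      (y (m + k1)).1 = (z (k - k1)).1 ∧
      |(y (m + k1)).2 - (z (k - k1)).2| ≤ C * ρ ^ (k - k1) * M := by
    intro k h5 h6
    have h7 := hrunl k h5 h6 (k - k1) (by omega)
    rw [show m + k - (k - k1) = m + k1 by omega] at h7
    have h10 := hContr _ _ (hwV (k - k1)) h7.1
    rw [List.length_map, List.length_range] at h10
    have h11 := S.A_pos ((List.range (k - k1)).map l)
    refine ⟨?_, ?_⟩
    · have h12 := hlet k h5 h6 (k - k1) (by omega)
      rw [show m + k - (k - k1) = m + k1 by omega] at h12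
      exact h12
    · have h8 : (y (m + k1)).2 - (z (k - k1)).2 =
          S.A ((List.range (k - k1)).map l) * ((y (m + k)).2 - (z 0).2) := by
        rw [← h7.2]
        show S.g t ((List.range (k - k1)).map l) (y (m + k)).2 -
          S.g t ((List.range (k - k1)).map l) xs = _ * (_ - S.g t ((List.range 0).map l) xs)
        rw [List.range_zero, List.map_nil, g_nil]
        simp only [g]
        ring
      rw [h8, abs_mul, abs_of_pos h11]
      have h12 : |(y (m + k)).2 - (z 0).2| ≤ M := by
        have h13 := (hrunl k h5 h6 1 (by omega)).1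
        rw [List.range_one, List.map_singleton, run_single] at h13
        have h14 := (hz1 0).1
        have h13' : S.InJ t (z 0).1 (y (m + k)).2 := h13
        rw [abs_le]
        constructor
        · linarith [h13'.1, h14.2]
        · linarith [h13'.2, h14.1]
      have h15 : 0 ≤ C * ρ ^ (k - k1) := by positivity
      exact mul_le_mul h10 h12 (abs_nonneg _) h15
  have hkey : y (m + k1) = z d := by
    have hlt2 : ∀ k, k ∈ {K : ℕ | (fun j : Fin m => (y (m + K - j)).1) = cw} ∧ k2 ≤ k ∧
        (k - k1) % p = d → z (k - k1) = z d := by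
      rintro k ⟨_, _, h5⟩
      rw [← h5]
      exact (hzper.map_mod_nat (k - k1)).symm
    refine Prod.ext ?_ ?_
    · obtain ⟨k, hk⟩ := hd.nonempty
      rw [← hlt2 k hk]
      exact (hest k hk.1 hk.2.1).1
    · by_contra hne
      have hpos : 0 < |(y (m + k1)).2 - (z d).2| := abs_pos.2 (sub_ne_zero.2 hne)
      have hlim : Filter.Tendsto (fun q : ℕ => C * ρ ^ q * M) Filter.atTop (nhds 0) := by
        have h5 := (tendsto_pow_atTop_nhds_zero_of_lt_one hρ0.le hρ1).const_mul C
        have h6 := h5.mul_const M
        simpa using h6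
      obtain ⟨q, hq⟩ := (hlim.eventually (gt_mem_nhds hpos)).exists_forall_of_atTop
      obtain ⟨k, hk, hkq⟩ := hd.exists_gt (k1 + q)
      have h5 := (hest k hk.1 hk.2.1).2
      rw [hlt2 k hk] at h5
      have h6 := hq (k - k1) (by omega)
      linarith
  -- conclusion
  have hend : ∀ i, i ≤ m + k1 → y (m + k1 - i) = z (d + i) := by
    intro i
    induction i with
    | zero => intro _; simpa using hkey
    | succ i ih =>
      intro hi
      have h5 := ih (by omega)
      have h6 := hy (m + k1 - (i + 1))
      rw [show m + k1 - (i + 1) + 1 = m + k1 - i by omega, h5] at h6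
      exact S.tr_unique h6 (hz1 (d + i))
  have h5 := hend (m + k1) le_rfl
  rw [Nat.sub_self] at h5
  rw [h5]
  exact S.chain_tper hz1 hp0 hz3 _

end Pool.Agent.H74.DU.L6
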